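import Pool.Agent.H20.DL.Plan

/-!
# DELTA (MP_d362fb_lc): existence of plans
-/

set_option autoImplicit false

namespace Pool.Agent.DL.P

open H5.DL
open Pool.Agent.H20.DL (cut cut_some cut_le star)

theorem exists_isCut {S : Set D} (hS : IsLowerSet S) (x : Node) : ∃ y, IsCut S x y :=
  ⟨cut S hS x, isCut_cut⟩

open Classical in
/-- the longest initial segment with labels in `S`, if there is one -/
noncomputable def cutAny (S : Set D) (x : Node) : Node :=
  if h : ∃ y, IsCut S x y then h.choose else x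

theorem isCut_cutAny {S : Set D} (hS : IsLowerSet S) (x : Node) : IsCut S x (cutAny S x) := by
  unfold cutAny
  rw [dif_pos (exists_isCut hS x)]
  exact (exists_isCut hS x).choose_spec

open Classical in
/-- the recursion for the plan -/
noncomputable def planF (r : Sys Prom) (rk : ℕ → ℕ) (b : ℕ) (s0 : Node) : ℕ → Node × Prop :=
  (measure rk).wf.fix (C := fun _ => Node × Prop) (fun v ih =>
    if v = b then (s0, True)
    else if h : ∃ a, r.E v a ∧ rk a < rk v then
      if (ih h.choose h.choose_spec.2).2 ∧ ∃ x ∈ (r.Z h.choose v).N, .nd x ∈ r.X h.choose ∧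
          (ih h.choose h.choose_spec.2).1 ≤ x
      then (cutAny (r.K v) (ih h.choose h.choose_spec.2).1, True)
      else ((ih h.choose h.choose_spec.2).1, False)
    else (s0, False))

theorem planF_base (r : Sys Prom) (rk : ℕ → ℕ) (b : ℕ) (s0 : Node) :
    planF r rk b s0 b = (s0, True) := by
  unfold planF
  rw [WellFounded.fix_eq, if_pos rfl]

theorem planF_none (r : Sys Prom) (rk : ℕ → ℕ) (b : ℕ) (s0 : Node) {v : ℕ} (hv : v ≠ b)
    (h : ¬ ∃ a, r.E v a ∧ rk a < rk v) : planF r rk b s0 v = (s0, False) := by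
  unfold planF
  rw [WellFounded.fix_eq, if_neg hv, dif_neg h]

open Classical in
theorem planF_pos (r : Sys Prom) (rk : ℕ → ℕ) (b : ℕ) (s0 : Node) {v a : ℕ} (hv : v ≠ b)
    (ha : r.E v a ∧ rk a < rk v) (hu : ∀ a', r.E v a' → rk a' < rk v → a' = a)
    (hc : (planF r rk b s0 a).2 ∧ ∃ x ∈ (r.Z a v).N, .nd x ∈ r.X a ∧
      (planF r rk b s0 a).1 ≤ x) :
    planF r rk b s0 v = (cutAny (r.K v) (planF r rk b s0 a).1, True) := by
  have h : ∃ a, r.E v a ∧ rk a < rk v := ⟨a, ha⟩
  have e : h.choose = a := hu _ h.choose_spec.1 h.choose_spec.2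
  conv_lhs => unfold planF
  rw [WellFounded.fix_eq, if_neg hv, dif_pos h]
  show (if (planF r rk b s0 h.choose).2 ∧ ∃ x ∈ (r.Z h.choose v).N, .nd x ∈ r.X h.choose ∧
      (planF r rk b s0 h.choose).1 ≤ x
      then (cutAny (r.K v) (planF r rk b s0 h.choose).1, True)
      else ((planF r rk b s0 h.choose).1, False)) = _
  rw [e, if_pos hc]

open Classical in
theorem planF_neg (r : Sys Prom) (rk : ℕ → ℕ) (b : ℕ) (s0 : Node) {v a : ℕ} (hv : v ≠ b)
    (ha : r.E v a ∧ rk a < rk v) (hu : ∀ a', r.E v a' → rk a' < rk v → a' = a)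
    (hc : ¬ ((planF r rk b s0 a).2 ∧ ∃ x ∈ (r.Z a v).N, .nd x ∈ r.X a ∧
      (planF r rk b s0 a).1 ≤ x)) :
    planF r rk b s0 v = ((planF r rk b s0 a).1, False) := by
  have h : ∃ a, r.E v a ∧ rk a < rk v := ⟨a, ha⟩
  have e : h.choose = a := hu _ h.choose_spec.1 h.choose_spec.2
  conv_lhs => unfold planF
  rw [WellFounded.fix_eq, if_neg hv, dif_pos h]
  show (if (planF r rk b s0 h.choose).2 ∧ ∃ x ∈ (r.Z h.choose v).N, .nd x ∈ r.X h.choose ∧
      (planF r rk b s0 h.choose).1 ≤ x
      then (cutAny (r.K v) (planF r rk b s0 h.choose).1, True)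
      else ((planF r rk b s0 h.choose).1, False)) = _
  rw [e, if_neg hc]

/-- **existence of plans** -/
theorem Plan.ex {Lg : Prom → Prop} {r : Sys Prom} (hv : Valid Lg r) {b : ℕ} (hb : b ∈ r.J)
    {s0 : Node} (hs : LabIn (r.K b) s0) : ∃ s Q, Plan r b s0 s Q := by
  obtain ⟨rk, h1, h2, h3⟩ := hv.forest b hb
  have hcase : ∀ v, v ≠ b → (∃ a, (r.E v a ∧ rk a < rk v) ∧
      ∀ a', r.E v a' → rk a' < rk v → a' = a) ∨ ¬ ∃ a, r.E v a ∧ rk a < rk v := by
    intro v hvb
    by_cases h : ∃ a, r.E v a ∧ rk a < rk v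
    · obtain ⟨a, ha⟩ := h
      exact Or.inl ⟨a, ha, fun a' h4 h5 => h3 v a' a h4 ha.1 h5 ha.2⟩
    · exact Or.inr h
  have hJ : ∀ v a, r.E v a → v ∈ r.J := fun v a h => hv.EJ v a h
  refine ⟨fun v => (planF r rk b s0 v).1, fun v => (planF r rk b s0 v).2, ?_, ?_, ?_, ?_, ?_⟩
  · show (planF r rk b s0 b).2
    rw [planF_base]; trivial
  · show (planF r rk b s0 b).1 = s0
    rw [planF_base]
  · intro v
    show (planF r rk b s0 v).2 → v ∈ r.J
    by_cases hvb : v = b
    · intro _; rw [hvb]; exact hb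
    rcases hcase v hvb with ⟨a, ha, -⟩ | h
    · intro _; exact hJ v a ha.1
    · rw [planF_none r rk b s0 hvb h]
      exact fun h => h.elim
  · intro v
    show (planF r rk b s0 v).2 → LabIn (r.K v) (planF r rk b s0 v).1
    by_cases hvb : v = b
    · intro _; rw [hvb, planF_base]; exact hs
    rcases hcase v hvb with ⟨a, ha, hu⟩ | h
    · by_cases hc : ((planF r rk b s0 a).2 ∧ ∃ x ∈ (r.Z a v).N, .nd x ∈ r.X a ∧
        (planF r rk b s0 a).1 ≤ x)
      · rw [planF_pos r rk b s0 hvb ha hu hc]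
        intro _
        exact (isCut_cutAny (hv.low v (hJ v a ha.1)) _).labIn
      · rw [planF_neg r rk b s0 hvb ha hu hc]
        exact fun h => h.elim
    · rw [planF_none r rk b s0 hvb h]
      exact fun h => h.elim
  · have key : ∀ p q, r.E p q → rk p < rk q →
        EdgeOK r (fun v => (planF r rk b s0 v).1) (fun v => (planF r rk b s0 v).2) p q := by
      intro p q hE hlt
      have hqb : q ≠ b := by
        rintro rfl
        have hne : p ≠ q := by rintro rfl; exact lt_irrefl _ hlt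
        exact absurd (h1 p (hJ p q hE) hne) (not_lt.2 hlt.le)
      have hp : r.E q p ∧ rk p < rk q := ⟨hv.Es p q hE, hlt⟩
      have hu : ∀ a', r.E q a' → rk a' < rk q → a' = p := fun a' h4 h5 => h3 q a' p h4 hp.1 h5 hp.2
      by_cases hc : ((planF r rk b s0 p).2 ∧ ∃ x ∈ (r.Z p q).N, .nd x ∈ r.X p ∧
        (planF r rk b s0 p).1 ≤ x)
      · have e := planF_pos r rk b s0 hqb hp hu hc
        left
        refine ⟨hc.1, ?_, ?_, hc.2⟩
        · show (planF r rk b s0 q).2
          rw [e]; trivial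
        · show IsCut (r.K q) (planF r rk b s0 p).1 (planF r rk b s0 q).1
          rw [e]
          exact isCut_cutAny (hv.low q (hJ q p hp.1)) _
      · have e := planF_neg r rk b s0 hqb hp hu hc
        right
        refine ⟨?_, ?_, ?_⟩
        · show ¬ (planF r rk b s0 q).2
          rw [e]; exact fun h => h
        · show (planF r rk b s0 q).1 = (planF r rk b s0 p).1
          rw [e]
        · intro hQ x hx hX hle
          exact hc ⟨hQ, x, hx, hX, hle⟩
    intro p q hE
    rcases lt_or_gt_of_ne (h2 p q hE) with h | h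
    · exact Or.inl (key p q hE h)
    · exact Or.inr (key q p (hv.Es p q hE) h)

end Pool.Agent.DL.P
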