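import Pool.Agent.H5.DL.Free

/-!
# DELTA (MP_d362fb_lc): truncation of nodes and the statements (6.1), (6.2), (6.3) of the
proof for nodes and labels only
-/

set_option autoImplicit false

namespace Pool.Agent.H20.DL

open H5.DL

variable {K L : Type} [LinearOrder K] [LinearOrder L]

/-- all labels of `x` are in `S` -/
def LabIn (x : Nd K L) (S : Set (K × L)) : Prop := ∀ ν d, x.f ν = some d → d ∈ S

open Classical in
/-- the longest initial segment of `x` with all labels in the lower set `S` -/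
noncomputable def cut (S : Set (K × L)) (hS : IsLowerSet S) (x : Nd K L) : Nd K L where
  f ν := if ∃ d ∈ S, x.f ν = some d then x.f ν else none
  dc ν μ h1 h2 := by
    by_cases hμ : ∃ d ∈ S, x.f μ = some d
    · obtain ⟨d, hd, hx⟩ := hμ
      have h3 : x.f ν ≠ none := x.dc ν μ h1 (by rw [hx]; exact Option.some_ne_none _)
      cases hν : x.f ν with
      | none => exact (h3 hν).elim
      | some e =>
        have h4 : ∃ d ∈ S, some e = some d := ⟨e, hS (x.mo ν μ e d h1 hν hx) hd, rfl⟩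
        rw [if_pos h4]; exact Option.some_ne_none _
    · rw [if_neg hμ] at h2; exact (h2 rfl).elim
  mo ν μ d e h1 h2 h3 := by
    by_cases hμ : ∃ d ∈ S, x.f μ = some d
    · rw [if_pos hμ] at h3
      by_cases hν : ∃ d ∈ S, x.f ν = some d
      · rw [if_pos hν] at h2
        exact x.mo ν μ d e h1 h2 h3
      · rw [if_neg hν] at h2; exact (Option.some_ne_none _ h2.symm).elim
    · rw [if_neg hμ] at h3; exact (Option.some_ne_none _ h3.symm).elim

theorem cut_some {S : Set (K × L)} {hS : IsLowerSet S} {x : Nd K L} {ν : L} {d : K × L} :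
    (cut S hS x).f ν = some d ↔ d ∈ S ∧ x.f ν = some d := by
  classical
  show (if ∃ d ∈ S, x.f ν = some d then x.f ν else none) = some d ↔ _
  constructor
  · intro h
    by_cases h' : ∃ d ∈ S, x.f ν = some d
    · rw [if_pos h'] at h
      obtain ⟨e, he, hx⟩ := h'
      rw [hx] at h
      have : e = d := Option.some_injective _ h
      exact ⟨this ▸ he, by rw [hx, this]⟩
    · rw [if_neg h'] at h; exact (Option.some_ne_none _ h.symm).elim
  · rintro ⟨h1, h2⟩
    rw [if_pos ⟨d, h1, h2⟩]; exact h2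

theorem cut_le {S : Set (K × L)} {hS : IsLowerSet S} {x : Nd K L} : cut S hS x ≤ x :=
  fun _ _ h => (cut_some.1 h).2

theorem cut_labIn {S : Set (K × L)} {hS : IsLowerSet S} {x : Nd K L} : LabIn (cut S hS x) S :=
  fun _ _ h => (cut_some.1 h).1

theorem LabIn.of_le {S : Set (K × L)} {x y : Nd K L} (h : LabIn y S) (hxy : x ≤ y) : LabIn x S :=
  fun ν d hd => h ν d (hxy ν d hd)

theorem le_cut {S : Set (K × L)} {hS : IsLowerSet S} {x y : Nd K L} (h : x ≤ y)
    (hx : LabIn x S) : x ≤ cut S hS y :=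
  fun ν d hd => cut_some.2 ⟨hx ν d hd, h ν d hd⟩

/-- `d` is the label of `x` at the first place where `y` does not agree with `x` -/
def IsLab (x y : Nd K L) (d : K × L) : Prop :=
  ∃ ν, x.f ν = some d ∧ y.f ν ≠ some d ∧ ∀ μ < ν, x.f μ = y.f μ

/-- existence of the first difference -/
theorem exists_isLab (h : Idx K L) {x y : Nd K L} (hxy : ¬ x ≤ y) : ∃ d, IsLab x y d := by
  have h1 : {ν | ∃ d, x.f ν = some d ∧ y.f ν ≠ some d}.Nonempty := by
    by_contra hn
    apply hxy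
    intro ν d hd
    by_contra hy
    exact hn ⟨ν, d, hd, hy⟩
  obtain ⟨d, hd, hy⟩ := h.wfL.min_mem _ h1
  refine ⟨d, h.wfL.min _ h1, hd, hy, fun μ hμ => ?_⟩
  have h2 : x.f μ ≠ none := x.dc μ _ hμ.le (by rw [hd]; exact Option.some_ne_none _)
  cases hx : x.f μ with
  | none => exact (h2 hx).elim
  | some e =>
    by_contra hne
    exact h.wfL.not_lt_min {ν | ∃ d, x.f ν = some d ∧ y.f ν ≠ some d} (x := μ)
      ⟨e, hx, fun h' => hne h'.symm⟩ hμ

theorem IsLab.unique (_h : Idx K L) {x y : Nd K L} {d e : K × L} (h1 : IsLab x y d)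
    (h2 : IsLab x y e) : d = e := by
  obtain ⟨ν, a1, a2, a3⟩ := h1
  obtain ⟨μ, b1, b2, b3⟩ := h2
  rcases lt_trichotomy ν μ with h | h | h
  · exact (a2 ((b3 ν h) ▸ a1)).elim
  · subst h; rw [a1] at b1; exact Option.some_injective _ b1
  · exact (b2 ((a3 μ h) ▸ b1)).elim

/-- (6.1): `b` is a node of the frame above `s`, the frame is closed under `(Z1)`, and the two
levels agree on the labels of the frame. -/
theorem step61 (h : Idx K L) {Kp Kq ZD : Set (K × L)} {hq : IsLowerSet Kq} {s b y : Nd K L}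
    (hs : LabIn s Kp) (hadm : ∀ l ∈ ZD, l ∈ Kp ↔ l ∈ Kq) (hsb : s ≤ b)
    (hz1 : ∀ d, IsLab b y d → d ∈ ZD) :
    s ≤ y ↔ cut Kq hq s ≤ y := by
  constructor
  · exact fun h' => cut_le.trans h'
  · intro h'
    by_contra hsy
    obtain ⟨d, ν, hd, hy, hμ⟩ := exists_isLab h hsy
    have hb : b.f ν = some d := hsb ν d hd
    have hlab : IsLab b y d := by
      refine ⟨ν, hb, hy, fun μ hμν => ?_⟩
      rw [← hμ μ hμν]
      have h2 : s.f μ ≠ none := s.dc μ _ hμν.le (by rw [hd]; exact Option.some_ne_none _)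
      cases hx : s.f μ with
      | none => exact (h2 hx).elim
      | some e => exact hsb μ e hx
    have hdz := hz1 d hlab
    have hdq : d ∈ Kq := (hadm d hdz).1 (hs ν d hd)
    exact hy (h' ν d (cut_some.2 ⟨hdq, hd⟩))

/-- the lowered level `K*` of a component with level `S` and plan node `s` -/
def star (k : K × L) (S : Set (K × L)) (s : Nd K L) : Set (K × L) :=
  {l | l ∈ S ∧ Ll l k ∧ ∃ ν d, s.f ν = some d ∧ Ll l d}

theorem star_sub {k : K × L} {S : Set (K × L)} {s : Nd K L} : star k S s ⊆ S := fun _ h => h.1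

theorem star_ll {k : K × L} {S : Set (K × L)} {s : Nd K L} : star k S s ⊆ {l | Ll l k} :=
  fun _ h => h.2.1

theorem star_lower {k : K × L} {S : Set (K × L)} {s : Nd K L} (hS : IsLowerSet S) :
    IsLowerSet (star k S s) := by
  rintro l l' hl ⟨h1, h2, ν, d, h3, h4⟩
  exact ⟨hS hl h1, Ll.of_le hl h2, ν, d, h3, Ll.of_le hl h4⟩

/-- the level of the component `i` with a promise of label `k` in the way of the plan -/
theorem star_root {k : K × L} {S : Set (K × L)} {s : Nd K L} (hS : IsLowerSet S) (hk : k ∈ S)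
    (h : ∃ ν d, s.f ν = some d ∧ k ≤ d) : star k S s = {l | Ll l k} := by
  ext l
  constructor
  · exact fun h' => h'.2.1
  · intro hl
    obtain ⟨ν, d, h1, h2⟩ := h
    exact ⟨hS (Ll.le hl) hk, hl, ν, d, h1, Ll.trans_le hl h2⟩

/-- (6.3), both components on the way of the plan -/
theorem step63 (h : Idx K L) {Kp Kq ZD : Set (K × L)} {hq : IsLowerSet Kq} {k : K × L}
    {s b : Nd K L} (hs : LabIn s Kp) (hadm : ∀ l ∈ ZD, l ∈ Kp ↔ l ∈ Kq) (hsb : s ≤ b)
    (hz2 : ∀ l ∈ ZD, ∀ ν d, b.f ν = some d → Ll l d →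
      (∀ μ < ν, ∀ e, b.f μ = some e → ¬ Ll l e) → d ∈ ZD) :
    ∀ l ∈ ZD, l ∈ star k Kp s ↔ l ∈ star k Kq (cut Kq hq s) := by
  intro l hl
  constructor
  · rintro ⟨h1, h2, ν, d, h3, h4⟩
    refine ⟨(hadm l hl).1 h1, h2, ?_⟩
    have hne : {ν | ∃ d, s.f ν = some d ∧ Ll l d}.Nonempty := ⟨ν, d, h3, h4⟩
    obtain ⟨e, he1, he2⟩ := h.wfL.min_mem _ hne
    set ρ := h.wfL.min _ hne with hρ
    have hmin : ∀ μ < ρ, ∀ e, b.f μ = some e → ¬ Ll l e := by
      intro μ hμ e' he' hle
      have h5 : s.f μ ≠ none := s.dc μ _ hμ.le (by rw [he1]; exact Option.some_ne_none _)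
      cases hx : s.f μ with
      | none => exact (h5 hx).elim
      | some e'' =>
        have h6 := hsb μ e'' hx
        rw [he'] at h6
        have h7 : e' = e'' := Option.some_injective _ h6
        exact h.wfL.not_lt_min {ν | ∃ d, s.f ν = some d ∧ Ll l d} (x := μ)
          ⟨e'', hx, h7 ▸ hle⟩ hμ
    have hez : e ∈ ZD := hz2 l hl ρ e (hsb ρ e he1) he2 hmin
    exact ⟨ρ, e, cut_some.2 ⟨(hadm e hez).1 (hs ρ e he1), he1⟩, he2⟩
  · rintro ⟨h1, h2, ν, d, h3, h4⟩
    exact ⟨(hadm l hl).2 h1, h2, ν, d, (cut_some.1 h3).2, h4⟩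

/-- (6.3), the plan node is the same for both components -/
theorem step63' {Kp Kq ZD : Set (K × L)} {k : K × L} {s : Nd K L}
    (hadm : ∀ l ∈ ZD, l ∈ Kp ↔ l ∈ Kq) :
    ∀ l ∈ ZD, l ∈ star k Kp s ↔ l ∈ star k Kq s := by
  intro l hl
  constructor
  · rintro ⟨h1, h2⟩; exact ⟨(hadm l hl).1 h1, h2⟩
  · rintro ⟨h1, h2⟩; exact ⟨(hadm l hl).2 h1, h2⟩

end Pool.Agent.H20.DL
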