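import Pool.Agent.DL.P.Defs
import Pool.Agent.H20.DL.Cut

/-!
# DELTA (MP_d362fb_lc): plans, (6.1), (6.3), protected nodes, the lowered system
-/

set_option autoImplicit false

namespace Pool.Agent.DL.P

open H5.DL
open Pool.Agent.H20.DL (cut cut_some cut_le star)

/-- `y` is the longest initial segment of `x` with all labels in `S` -/
def IsCut (S : Set D) (x y : Node) : Prop := ∀ ν d, y.f ν = some d ↔ d ∈ S ∧ x.f ν = some d

theorem IsCut.le {S : Set D} {x y : Node} (h : IsCut S x y) : y ≤ x :=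
  fun ν d hd => ((h ν d).1 hd).2

theorem IsCut.labIn {S : Set D} {x y : Node} (h : IsCut S x y) : LabIn S y :=
  fun ν d hd => ((h ν d).1 hd).1

theorem isCut_cut {S : Set D} {hS : IsLowerSet S} {x : Node} : IsCut S x (cut S hS x) :=
  fun _ _ => cut_some

theorem IsCut.eq {S : Set D} {x y : Node} (hS : IsLowerSet S) (h : IsCut S x y) :
    y = cut S hS x := by
  apply le_antisymm
  · intro ν d hd; exact cut_some.2 ((h ν d).1 hd)
  · intro ν d hd; exact (h ν d).2 (cut_some.1 hd)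

/-- the edge `p`, `q` of a plan, `p` is the inner component -/
def EdgeOK (r : Sys Prom) (s : ℕ → Node) (Q : ℕ → Prop) (p q : ℕ) : Prop :=
  (Q p ∧ Q q ∧ IsCut (r.K q) (s p) (s q) ∧ ∃ x ∈ (r.Z p q).N, .nd x ∈ r.X p ∧ s p ≤ x) ∨
  (¬ Q q ∧ s q = s p ∧ (Q p → ∀ x ∈ (r.Z p q).N, .nd x ∈ r.X p → ¬ s p ≤ x))

/-- plans: `Q` is the set of the components of the move, `s q` the node of the cone -/
structure Plan (r : Sys Prom) (b : ℕ) (s0 : Node) (s : ℕ → Node) (Q : ℕ → Prop) : Prop where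
  baseQ : Q b
  bases : s b = s0
  QJ : ∀ p, Q p → p ∈ r.J
  lab : ∀ p, Q p → LabIn (r.K p) (s p)
  edge : ∀ p q, r.E p q → EdgeOK r s Q p q ∨ EdgeOK r s Q q p

/-- the cone of the plan -/
def Cone (r : Sys Prom) (s : ℕ → Node) (Q : ℕ → Prop) (p : ℕ) : Set Node :=
  {x | Q p ∧ .nd x ∈ r.X p ∧ s p ≤ x}

variable {Lg : Prom → Prop} {r : Sys Prom} {b : ℕ} {s0 : Node} {s : ℕ → Node} {Q : ℕ → Prop}

theorem Br.isLab {x y : Node} {d : D} : Br x y d ↔ Pool.Agent.H20.DL.IsLab x y d := by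
  constructor
  · rintro ⟨ν, h1, h2, h3⟩; exact ⟨ν, h2, h3, h1⟩
  · rintro ⟨ν, h1, h2, h3⟩; exact ⟨ν, h3, h1, h2⟩

/-- the label with which a node of the cone leaves a node outside is a label of the cone -/
theorem Br.of_cone {t x y : Node} {d : D} (h1 : t ≤ x) (h2 : ¬ t ≤ y) (h : Br x y d) :
    ∃ ν, t.f ν = some d := by
  obtain ⟨ν, h3, h4, h5⟩ := h
  refine ⟨ν, ?_⟩
  by_contra hne
  apply h2
  have hn : t.f ν = none := by
    cases hf : t.f ν with
    | none => rfl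
    | some e =>
      have := h1 ν e hf
      rw [h4] at this
      exact (hne (by rw [hf, this])).elim
  intro μ e he
  have hμ : μ < ν := by
    by_contra hμ
    exact t.dc ν μ (not_lt.1 hμ) (by rw [he]; exact Option.some_ne_none _) hn
  rw [← h3 μ hμ]
  exact h1 μ e he

theorem Valid.adm' (hv : Valid Lg r) {p q : ℕ} (hE : r.E p q) :
    ∀ l ∈ (r.Z p q).L, l ∈ r.K p ↔ l ∈ r.K q := by
  intro l hl
  exact ⟨hv.adm p q hE l hl, hv.adm q p (hv.Es p q hE) l (hv.symZ p q ▸ hl)⟩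

theorem Valid.sh' (hv : Valid Lg r) {p q : ℕ} (hE : r.E p q) (f : Fact Prom)
    (hf : (r.Z p q).Has f) : f ∈ r.X p ↔ f ∈ r.X q :=
  ⟨hv.sh p q hE f hf, hv.sh q p (hv.Es p q hE) f (hv.symZ p q ▸ hf)⟩

/-- (6.1) for an edge of the plan inside `Q` -/
theorem le_iff_of_cut (hv : Valid Lg r) {p q : ℕ} (hE : r.E p q) {t t' x : Node}
    (ht : LabIn (r.K p) t) (hc : IsCut (r.K q) t t') (hx : x ∈ (r.Z p q).N) (htx : t ≤ x)
    {y : Node} (hy : y ∈ (r.Z p q).N) : t ≤ y ↔ t' ≤ y := by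
  have hq : IsLowerSet (r.K q) := hv.low q (hv.EJ q p (hv.Es p q hE))
  rw [hc.eq hq]
  exact Pool.Agent.H20.DL.step61 (hq := hq) idx ht (hv.adm' hE) htx
    fun d hd => (hv.good p q hE).z1 x hx y hy d (Br.isLab.2 hd)

theorem Plan.le_iff (hv : Valid Lg r) (hP : Plan r b s0 s Q) {p q : ℕ} (hE : r.E p q)
    (hp : Q p) (hq : Q q) {y : Node} (hy : y ∈ (r.Z p q).N) : s p ≤ y ↔ s q ≤ y := by
  rcases hP.edge p q hE with h | h
  · rcases h with ⟨-, -, h1, x, h2, -, h3⟩ | ⟨h1, -⟩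
    · exact le_iff_of_cut hv hE (hP.lab p hp) h1 h2 h3 hy
    · exact (h1 hq).elim
  · rcases h with ⟨-, -, h1, x, h2, -, h3⟩ | ⟨h1, -⟩
    · exact (le_iff_of_cut hv (hv.Es p q hE) (hP.lab q hq) h1 h2 h3 (hv.symZ p q ▸ hy)).symm
    · exact (h1 hp).elim

/-- (6.1): the cones of the plan agree on the frames -/
theorem Plan.cone (hv : Valid Lg r) (hP : Plan r b s0 s Q) {p q : ℕ} (hE : r.E p q) {x : Node}
    (hx : x ∈ (r.Z p q).N) (h : x ∈ Cone r s Q p) : x ∈ Cone r s Q q := by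
  obtain ⟨h1, h2, h3⟩ := h
  have hX : .nd x ∈ r.X q := hv.sh p q hE (.nd x) hx h2
  by_cases hq : Q q
  · exact ⟨hq, hX, (hP.le_iff hv hE h1 hq hx).1 h3⟩
  · rcases hP.edge p q hE with h | h
    · rcases h with ⟨-, h, -⟩ | ⟨-, -, h⟩
      · exact (hq h).elim
      · exact (h h1 x hx h2 h3).elim
    · rcases h with ⟨h, -⟩ | ⟨h, -⟩
      · exact (hq h).elim
      · exact (h h1).elim

/-- the cones of the plan are cones in the sense of the time steps -/
theorem Plan.cone_time (hP : Plan r b s0 s Q) (j : ℕ) : Cone r s Q j = ∅ ∨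
    j ∈ r.J ∧ ∃ t : Node, LabIn (r.K j) t ∧ ∀ x, x ∈ Cone r s Q j ↔ .nd x ∈ r.X j ∧ t ≤ x := by
  by_cases hj : Q j
  · refine Or.inr ⟨hP.QJ j hj, s j, hP.lab j hj, fun x => ?_⟩
    exact ⟨fun h => ⟨h.2.1, h.2.2⟩, fun h => ⟨hj, h.1, h.2⟩⟩
  · left
    ext x
    exact ⟨fun h => (hj h.1).elim, fun h => h.elim⟩

/-- (6.3): the lowered levels agree on the frames -/
theorem Plan.star_adm (hv : Valid Lg r) (hP : Plan r b s0 s Q) (k : D) {p q : ℕ} (hE : r.E p q)
    (l : D) (hl : l ∈ (r.Z p q).L) : l ∈ star k (r.K p) (s p) ↔ l ∈ star k (r.K q) (s q) := by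
  have key : ∀ p q, r.E p q → l ∈ (r.Z p q).L → EdgeOK r s Q p q →
      (l ∈ star k (r.K p) (s p) ↔ l ∈ star k (r.K q) (s q)) := by
    intro p q hE hl h
    rcases h with ⟨h0, -, h1, x, h2, -, h3⟩ | ⟨-, h1, -⟩
    · have hq : IsLowerSet (r.K q) := hv.low q (hv.EJ q p (hv.Es p q hE))
      rw [h1.eq hq]
      exact Pool.Agent.H20.DL.step63 (hq := hq) idx (hP.lab p h0) (hv.adm' hE) h3
        (fun l hl ν d a1 a2 a3 => (hv.good p q hE).z2 x h2 l hl d ⟨ν, a1, a2, a3⟩) l hl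
    · rw [h1]
      exact Pool.Agent.H20.DL.step63' (hv.adm' hE) l hl
  rcases hP.edge p q hE with h | h
  · exact key p q hE hl h
  · exact (key q p (hv.Es p q hE) (hv.symZ p q ▸ hl) h).symm

/-- the facts which remain if only the promises with labels in `S` are kept -/
def KeepF (S : Set D) : Fact Prom → Prop
  | .pr φ => φ.lab ∈ S
  | .rl φ _ => φ.lab ∈ S
  | _ => True

/-- the lowered system, with the root `i` -/
def lowSys (r : Sys Prom) (k : D) (s : ℕ → Node) (i : ℕ) : Sys Prom where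
  n := r.n
  rt := i
  J := r.J
  E := r.E
  K := fun q => star k (r.K q) (s q)
  Z := r.Z
  X := fun q => {f | f ∈ r.X q ∧ KeepF (star k (r.K q) (s q)) f}

theorem lowSys_below (r : Sys Prom) (k : D) (s : ℕ → Node) (i : ℕ) :
    Below (dn k) (lowSys r k s i) := fun _ _ _ hl => hl.2.1

/-- the level of the root of the lowered system -/
theorem lowSys_root (hv : Valid Lg r) {k : D} {i : ℕ} (hi : i ∈ r.J) (hk : k ∈ r.K i)
    (h : ∃ ν d, (s i).f ν = some d ∧ k ≤ d) : (lowSys r k s i).K i = dn k :=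
  Pool.Agent.H20.DL.star_root (hv.low i hi) hk h

/-- **the lowered system is valid** -/
theorem lowSys_valid (hv : Valid Lg r) (hP : Plan r b s0 s Q) (k : D) {i : ℕ} (hi : i ∈ r.J) :
    Valid (fun ψ => Ll ψ.lab k ∧ Lg ψ) (lowSys r k s i) where
  fin := hv.fin
  rt := hi
  Es := hv.Es
  EJ := hv.EJ
  forest := hv.forest
  low j hj := Pool.Agent.H20.DL.star_lower (hv.low j hj)
  symZ := hv.symZ
  good := hv.good
  nX j hj := by
    have h := hv.nX j hj
    show {f | f ∈ r.X j ∧ _} = ∅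
    ext f
    rw [h]
    exact ⟨fun h => h.1, fun h => h.elim⟩
  nZ := hv.nZ
  val j hj := by
    have h := hv.val j hj
    exact {
      fin := h.fin.subset fun f hf => hf.1
      itb := fun x m v hf => ⟨⟨(h.itb x m v hf.1).1, trivial⟩, (h.itb x m v hf.1).2⟩
      blx := fun x m hf => ⟨h.blx x m hf.1, trivial⟩
      dsx := fun x y hf => ⟨⟨(h.dsx x y hf.1).1, trivial⟩, ⟨(h.dsx x y hf.1).2, trivial⟩⟩
      rlx := fun φ m hf => ⟨h.rlx φ m hf.1, hf.2⟩
      fn := fun x m v v' hf hf' => h.fn x m v v' hf.1 hf'.1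
      leg := fun φ hf => ⟨⟨hf.2.2.1, (h.leg φ hf.1).1⟩, hf.2⟩ }
  adm p q hE l hl := (hP.star_adm hv k hE l hl).1
  sh p q hE f hf hX := by
    refine ⟨hv.sh p q hE f hf hX.1, ?_⟩
    have hlab : ∀ φ, φ ∈ (r.Z p q).Q → φ.lab ∈ (r.Z p q).L := by
      intro φ hφ
      have h := (hv.good p q hE).z3 φ hφ
      cases φ with
      | nil k => exact h
      | mk k c nd lb R => exact h.1
    cases f with
    | nd x => trivial
    | it x m v => trivial
    | bl x m => trivial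
    | ds x y => trivial
    | pr φ => exact (hP.star_adm hv k hE φ.lab (hlab φ hf)).1 hX.2
    | rl φ m => exact (hP.star_adm hv k hE φ.lab (hlab φ hf)).1 hX.2

/-- protected nodes -/
inductive Prot (r : Sys Prom) (s : ℕ → Node) (Q : ℕ → Prop) : ℕ → Node → Prop
  | base {q : ℕ} {y : Node} : Q q → s q ≤ y → Prot r s Q q y
  | edge {p q : ℕ} {y : Node} : Prot r s Q p y → r.E p q → y ∈ (r.Z p q).N → ¬ Q q →
      Prot r s Q q y

theorem Plan.eq_of_notQ (hP : Plan r b s0 s Q) {p q : ℕ} (hE : r.E p q) (hq : ¬ Q q) :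
    s q = s p := by
  rcases hP.edge p q hE with h | h
  · rcases h with ⟨-, h, -⟩ | ⟨-, h, -⟩
    · exact (hq h).elim
    · exact h
  · rcases h with ⟨h, -⟩ | ⟨-, h, -⟩
    · exact (hq h).elim
    · exact h.symm

/-- protected nodes are above the node of the plan -/
theorem Prot.le (hP : Plan r b s0 s Q) {q : ℕ} {y : Node} (h : Prot r s Q q y) : s q ≤ y := by
  induction h with
  | base _ h => exact h
  | edge _ hE _ hq ih => rw [hP.eq_of_notQ hE hq]; exact ih

/-- protection is closed under sharing -/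
theorem Prot.share (hv : Valid Lg r) (hP : Plan r b s0 s Q) {p q : ℕ} (hE : r.E p q) {y : Node}
    (hy : y ∈ (r.Z p q).N) (h : Prot r s Q p y) : Prot r s Q q y := by
  by_cases hq : Q q
  · refine Prot.base hq ?_
    by_cases hp : Q p
    · exact (hP.le_iff hv hE hp hq hy).1 (h.le hP)
    · rw [← hP.eq_of_notQ (hv.Es p q hE) hp]; exact h.le hP
  · exact Prot.edge h hE hy hq

/-- (6.4) -/
theorem Prot.label (hP : Plan r b s0 s Q) {q : ℕ} {y : Node} (h : Prot r s Q q y) {k l : D}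
    (hl : l ∈ star k (r.K q) (s q)) : ∃ ν d, y.f ν = some d ∧ Ll l d := by
  obtain ⟨-, -, ν, d, h1, h2⟩ := hl
  exact ⟨ν, d, h.le hP ν d h1, h2⟩

/-- protected nodes are not free for the labels of the lowered level -/
theorem Prot.not_free (hP : Plan r b s0 s Q) {q : ℕ} {y : Node} (h : Prot r s Q q y) {k l : D}
    (hl : l ∈ star k (r.K q) (s q)) : ¬ y.Free l := by
  obtain ⟨ν, d, h1, h2⟩ := h.label hP hl
  exact fun hf => hf ν d h1 h2.le

/-- protected nodes of `i` are not free for the label of a promise in the way of the plan -/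
theorem Prot.not_free_root (hP : Plan r b s0 s Q) {q : ℕ} {y : Node} (h : Prot r s Q q y) {k : D}
    (hk : ∃ ν d, (s q).f ν = some d ∧ k ≤ d) : ¬ y.Free k := by
  obtain ⟨ν, d, h1, h2⟩ := hk
  exact fun hf => hf ν d (h.le hP ν d h1) h2

theorem Cone.prot {p : ℕ} {x : Node} (h : x ∈ Cone r s Q p) : Prot r s Q p x :=
  Prot.base h.1 h.2.2

end Pool.Agent.DL.P
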