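import Pool.Agent.H20.DL.Plan

/-!
# DELTA (MP_d362fb_lc): the families of nodes and promises which may be kept in the old
components, for the application of Lemma R in Lemma V
-/

set_option autoImplicit false

namespace Pool.Agent.DL.P

open H5.DL
open Pool.Agent.H20.DL (cut cut_some cut_le star)

private theorem has_mono {P : Type} {Z Z' : Fr P} (h : Fr.Le Z Z') {f : Fact P} (hf : Z.Has f) :
    Z'.Has f := by
  cases f with
  | nd x => exact h.1 hf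
  | it x m v => exact h.1 hf
  | bl x m => exact h.1 hf
  | ds x y => exact ⟨h.1 hf.1, h.1 hf.2⟩
  | pr φ => exact h.2.1 hf
  | rl φ m => exact h.2.1 hf

private theorem contIn_mono {P : Type} {e : Sys P} {Z Z' : Fr P} (h : Fr.Le Z Z')
    (he : ContIn e Z) : ContIn e Z' :=
  ⟨fun j f hf => has_mono h (he.X j f hf), fun p q =>
    ⟨(he.Z p q).1.trans h.1, (he.Z p q).2.1.trans h.2.1, (he.Z p q).2.2.trans h.2.2⟩⟩

/-- the intersection of two frames -/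
def Fr.inter (Z Z' : Fr Prom) : Fr Prom := ⟨Z.N ∩ Z'.N, Z.Q ∩ Z'.Q, Z.L ∩ Z'.L⟩

theorem Prom.In.inter {Z Z' : Fr Prom} {φ : Prom} (h : φ.In Z) (h' : φ.In Z') :
    φ.In (Z.inter Z') := by
  cases φ with
  | nil k => exact ⟨h, h'⟩
  | mk k c nd lb R =>
    exact ⟨⟨h.1, h'.1⟩, fun i => ⟨⟨(h.2 i).1, (h'.2 i).1⟩, ⟨(h.2 i).2.1, (h'.2 i).2.1⟩,
      ⟨(h.2 i).2.2, (h'.2 i).2.2⟩⟩⟩

theorem Good.inter {Z Z' : Fr Prom} (h : Good Z) (h' : Good Z') : Good (Z.inter Z') where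
  cN := h.cN.mono fun _ hx => hx.1
  cQ := h.cQ.mono fun _ hx => hx.1
  cL := h.cL.mono fun _ hx => hx.1
  z1 b hb b' hb' d hd := ⟨h.z1 b hb.1 b' hb'.1 d hd, h'.z1 b hb.2 b' hb'.2 d hd⟩
  z2 b hb l hl d hd := ⟨h.z2 b hb.1 l hl.1 d hd, h'.z2 b hb.2 l hl.2 d hd⟩
  z3 φ hφ := (h.z3 φ hφ.1).inter (h'.z3 φ hφ.2)

/-- events of a promise inside a frame are inside the frame -/
theorem Prom.In.contIn {Z : Fr Prom} {φ : Prom} (h : φ.In Z) {m : ℕ} {e : Sys Prom}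
    (he : Ev φ m e) : ContIn e Z := by
  cases φ with
  | nil k => exact he.elim
  | mk k c nd lb R =>
    refine contIn_mono ⟨?_, ?_, ?_⟩ he.1
    · rintro _ ⟨i, rfl⟩; exact (h.2 i).2.1
    · rintro _ ⟨i, rfl⟩; exact (h.2 i).1
    · rintro _ ⟨i, rfl⟩; exact (h.2 i).2.2

theorem ContIn.inter {e : Sys Prom} {Z Z' : Fr Prom} (h : ContIn e Z) (h' : ContIn e Z') :
    ContIn e (Z.inter Z') := by
  refine ⟨fun j f hf => ?_, fun p q => ?_⟩
  · have h1 := h.X j f hf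
    have h2 := h'.X j f hf
    cases f with
    | nd x => exact ⟨h1, h2⟩
    | it x m v => exact ⟨h1, h2⟩
    | bl x m => exact ⟨h1, h2⟩
    | ds x y => exact ⟨⟨h1.1, h2.1⟩, ⟨h1.2, h2.2⟩⟩
    | pr φ => exact ⟨h1, h2⟩
    | rl φ m => exact ⟨h1, h2⟩
  · exact ⟨Set.subset_inter (h.Z p q).1 (h'.Z p q).1,
      Set.subset_inter (h.Z p q).2.1 (h'.Z p q).2.1,
      Set.subset_inter (h.Z p q).2.2 (h'.Z p q).2.2⟩

/-- the nodes which may be kept in the component `j` -/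
def WN (r : Sys Prom) (s : ℕ → Node) (Q : ℕ → Prop) (j : ℕ) : Set Node :=
  {y | .nd y ∈ r.X j ∨ ¬ Prot r s Q j y}

/-- the frames which may occur in the events of the promises of the component `j` -/
structure WZ (r : Sys Prom) (k : D) (s : ℕ → Node) (Q : ℕ → Prop) (j : ℕ) (Z : Fr Prom) :
    Prop where
  good : Good Z
  L : ∀ d ∈ Z.L, d ∈ star k (r.K j) (s j)
  N : ∀ x ∈ Z.N, ¬ Prot r s Q j x

/-- the promises which may be kept in the component `j` -/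
def WQ (r : Sys Prom) (k : D) (s : ℕ → Node) (Q : ℕ → Prop) (j : ℕ) : Set Prom :=
  {ψ | ∃ Z, WZ r k s Q j Z ∧ ∀ m e, Ev ψ m e → ContIn e Z}

variable {Lg : Prom → Prop} {r : Sys Prom} {b : ℕ} {s0 : Node} {s : ℕ → Node} {Q : ℕ → Prop}
  {k : D}

/-- legal promises of the lowered level may be kept -/
theorem WQ.of_legal (hv : Valid Lg r) (hP : Plan r b s0 s Q) {j : ℕ} (hj : j ∈ r.J) {ψ : Prom}
    {Lg' : Prom → Prop} (h : LegB Lg' ψ) (hl : ψ.lab ∈ star k (r.K j) (s j)) :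
    ψ ∈ WQ r k s Q j := by
  obtain ⟨Z, h1, h2, h3, h4⟩ := h.fr
  refine ⟨Z, ⟨h1, fun d hd => ?_, fun x hx hp => hp.not_free hP hl (h3 x hx)⟩,
    fun m e he => (h4 m e he).2⟩
  exact Pool.Agent.H20.DL.star_lower (hv.low j hj) (h2 d hd).le hl

theorem WQ.of_legal' (hv : Valid Lg r) (hP : Plan r b s0 s Q) {j : ℕ} (hj : j ∈ r.J) {ψ : Prom}
    (h : Legal ψ) (hl : ψ.lab ∈ star k (r.K j) (s j)) : ψ ∈ WQ r k s Q j :=
  WQ.of_legal hv hP hj ((legal_iff ψ).1 h) hl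

/-- promises of a frame which may occur may be kept -/
theorem WZ.promise {j : ℕ} {Z : Fr Prom} (h : WZ r k s Q j Z) {ψ : Prom} (hψ : ψ ∈ Z.Q) :
    ψ ∈ WQ r k s Q j :=
  ⟨Z, h, fun _ _ he => (h.good.z3 ψ hψ).contIn he⟩

/-- everything in an event of a promise which may be kept may be kept -/
theorem WQ.ev {j : ℕ} {ψ : Prom} (h : ψ ∈ WQ r k s Q j) {m : ℕ} {e : Sys Prom}
    (he : Ev ψ m e) : ∃ Z, WZ r k s Q j Z ∧ ContIn e Z := by
  obtain ⟨Z, h1, h2⟩ := h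
  exact ⟨Z, h1, h2 m e he⟩

theorem WQ.ev_nd {j : ℕ} {ψ : Prom} (h : ψ ∈ WQ r k s Q j) {m : ℕ} {e : Sys Prom}
    (he : Ev ψ m e) {a : ℕ} {x : Node} (hx : .nd x ∈ e.X a) : ¬ Prot r s Q j x := by
  obtain ⟨Z, h1, h2⟩ := WQ.ev h he
  exact h1.N x (h2.X a _ hx)

theorem WQ.ev_pr {j : ℕ} {ψ : Prom} (h : ψ ∈ WQ r k s Q j) {m : ℕ} {e : Sys Prom}
    (he : Ev ψ m e) {a : ℕ} {χ : Prom} (hx : .pr χ ∈ e.X a) : χ ∈ WQ r k s Q j := by
  obtain ⟨Z, h1, h2⟩ := WQ.ev h he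
  exact h1.promise (h2.X a _ hx)

theorem WQ.ev_ZN {j : ℕ} {ψ : Prom} (h : ψ ∈ WQ r k s Q j) {m : ℕ} {e : Sys Prom}
    (he : Ev ψ m e) {a c : ℕ} {x : Node} (hx : x ∈ (e.Z a c).N) : ¬ Prot r s Q j x := by
  obtain ⟨Z, h1, h2⟩ := WQ.ev h he
  exact h1.N x ((h2.Z a c).1 hx)

theorem WQ.ev_ZQ {j : ℕ} {ψ : Prom} (h : ψ ∈ WQ r k s Q j) {m : ℕ} {e : Sys Prom}
    (he : Ev ψ m e) {a c : ℕ} {χ : Prom} (hx : χ ∈ (e.Z a c).Q) : χ ∈ WQ r k s Q j := by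
  obtain ⟨Z, h1, h2⟩ := WQ.ev h he
  exact h1.promise ((h2.Z a c).2.1 hx)

theorem WQ.ev_ZL {j : ℕ} {ψ : Prom} (h : ψ ∈ WQ r k s Q j) {m : ℕ} {e : Sys Prom}
    (he : Ev ψ m e) {a c : ℕ} {l : D} (hx : l ∈ (e.Z a c).L) : l ∈ star k (r.K j) (s j) := by
  obtain ⟨Z, h1, h2⟩ := WQ.ev h he
  exact h1.L l ((h2.Z a c).2.2 hx)

/-- the families are closed under sharing -/
theorem WN.share (hv : Valid Lg r) (hP : Plan r b s0 s Q) {p q : ℕ} (hE : r.E p q) {y : Node}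
    (hy : y ∈ (r.Z p q).N) (h : y ∈ WN r s Q p) : y ∈ WN r s Q q := by
  rcases h with h | h
  · exact Or.inl (hv.sh p q hE (.nd y) hy h)
  · exact Or.inr fun h' => h (h'.share hv hP (hv.Es p q hE) (hv.symZ p q ▸ hy))

theorem WZ.share (hv : Valid Lg r) (hP : Plan r b s0 s Q) {p q : ℕ} (hE : r.E p q)
    {Z : Fr Prom} (h : WZ r k s Q p Z) : WZ r k s Q q (Z.inter (r.Z p q)) where
  good := h.good.inter (hv.good p q hE)
  L d hd := (hP.star_adm hv k hE d hd.2).1 (h.L d hd.1)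
  N x hx hp := h.N x hx.1 (hp.share hv hP (hv.Es p q hE) (hv.symZ p q ▸ hx.2))

theorem WQ.share (hv : Valid Lg r) (hP : Plan r b s0 s Q) {p q : ℕ} (hE : r.E p q) {ψ : Prom}
    (hψ : ψ ∈ (r.Z p q).Q) (h : ψ ∈ WQ r k s Q p) : ψ ∈ WQ r k s Q q := by
  obtain ⟨Z, h1, h2⟩ := h
  exact ⟨Z.inter (r.Z p q), h1.share hv hP hE, fun m e he =>
    (h2 m e he).inter (((hv.good p q hE).z3 ψ hψ).contIn he)⟩

/-- everything present in the lowered system may be kept -/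
theorem WQ.of_lowSys (hv : Valid Legal r) (hP : Plan r b s0 s Q) {i j : ℕ} (hj : j ∈ r.J)
    {ψ : Prom} (h : .pr ψ ∈ (lowSys r k s i).X j) : ψ ∈ WQ r k s Q j :=
  WQ.of_legal' hv hP hj ((hv.val j hj).leg ψ h.1).1 h.2

theorem WN.of_lowSys {i j : ℕ} {y : Node} (h : .nd y ∈ (lowSys r k s i).X j) : y ∈ WN r s Q j :=
  Or.inl h.1

/-- the target in the root: nodes free for the label `k` -/
theorem WN.of_free (hP : Plan r b s0 s Q) {i : ℕ} (hk : ∃ ν d, (s i).f ν = some d ∧ k ≤ d)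
    {y : Node} (hy : y.Free k) : y ∈ WN r s Q i :=
  Or.inr fun h => h.not_free_root hP hk hy

/-- the target in the root: the frame of a legal promise of label `k` may occur -/
theorem WZ.of_legal_root (hP : Plan r b s0 s Q) (hv : Valid Lg r) {i : ℕ} (hi : i ∈ r.J)
    (hki : k ∈ r.K i) (hk : ∃ ν d, (s i).f ν = some d ∧ k ≤ d) {φ : Prom} (hφ : Legal φ)
    (hlab : φ.lab = k) : ∃ Z, WZ r k s Q i Z ∧ ∀ m e, Ev φ m e → ContIn e Z := by
  obtain ⟨Z, h1, h2, h3, h4⟩ := ((legal_iff φ).1 hφ).fr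
  refine ⟨Z, ⟨h1, fun d hd => ?_, fun x hx hp => ?_⟩, fun m e he => (h4 m e he).2⟩
  · rw [Pool.Agent.H20.DL.star_root (hv.low i hi) hki hk]
    exact hlab ▸ h2 d hd
  · exact hp.not_free_root hP hk (hlab ▸ h3 x hx)

end Pool.Agent.DL.P
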